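import Pool.Agent.Helper21.DN.Stmts

set_option autoImplicit false

namespace Pool.Agent.Helper46.DN

open Pool.Agent.Helper21.DN

universe u

/-- iterates of a nilpotent vector are independent -/
lemma dett_li {K V : Type*} [Field K] [AddCommGroup V] [Module K V] (D : Module.End K V) (v : V)
    (n : ℕ) (h0 : (D ^ n) v = 0) (h1 : (D ^ (n - 1)) v ≠ 0) :
    LinearIndependent K (fun j : Fin n => (D ^ (j : ℕ)) v) := by
  rw [Fintype.linearIndependent_iff]
  intro c hc
  have hbig : ∀ m, n ≤ m → (D ^ m) v = 0 := by
    intro m hm
    obtain ⟨t, rfl⟩ := Nat.exists_eq_add_of_le hm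
    rw [Nat.add_comm, pow_add, Module.End.mul_apply, h0, map_zero]
  have key : ∀ k : ℕ, ∀ i : Fin n, (i : ℕ) < k → c i = 0 := by
    intro k
    induction k with
    | zero => intro i hi; exact absurd hi (Nat.not_lt_zero _)
    | succ k ih =>
      intro i hi
      rcases Nat.lt_succ_iff_lt_or_eq.1 hi with h | h
      · exact ih i h
      · have h2 := congrArg (fun w => (D ^ (n - 1 - k)) w) hc
        simp only [map_sum, map_zero, map_smul] at h2
        rw [Finset.sum_eq_single i] at h2
        · rw [← Module.End.mul_apply, ← pow_add] at h2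
          have h3 : n - 1 - k + (i : ℕ) = n - 1 := by have := i.2; omega
          rw [h3] at h2
          exact (smul_eq_zero.1 h2).resolve_right h1
        · intro j _ hj
          rw [← Module.End.mul_apply, ← pow_add]
          rcases Nat.lt_or_ge (j : ℕ) k with h4 | h4
          · rw [ih j h4, zero_smul]
          · have h5 : (j : ℕ) ≠ k := fun h6 => hj (Fin.ext (h6.trans h.symm))
            rw [hbig _ (by have := i.2; omega), smul_zero]
        · intro h4; exact absurd (Finset.mem_univ _) h4
  intro i
  exact key ((i : ℕ) + 1) i (Nat.lt_succ_self _)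

/-- the power `(g - 1)^(n - 1)` is the norm element, `n = p^N` -/
lemma dett_pow {K V : Type*} [Field K] [AddCommGroup V] [Module K V] (p : ℕ) [Fact p.Prime]
    [CharP K p] (N : ℕ) (G : Module.End K V) :
    (G - 1) ^ (p ^ N - 1) = ∑ i ∈ Finset.range (p ^ N), G ^ i := by
  have h1 : ((Polynomial.X - 1 : Polynomial K)) ^ (p ^ N - 1) =
      ∑ i ∈ Finset.range (p ^ N), (Polynomial.X : Polynomial K) ^ i := by
    have hX : (Polynomial.X - 1 : Polynomial K) ≠ 0 := by
      have := Polynomial.X_sub_C_ne_zero (1 : K)
      simpa using this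
    apply mul_left_cancel₀ hX
    rw [mul_geom_sum, ← pow_succ', Nat.sub_add_cancel (Nat.one_le_iff_ne_zero.2
      (pow_ne_zero _ (Fact.out : p.Prime).ne_zero))]
    rw [sub_pow_char_pow, one_pow]
  have h2 := congrArg (Polynomial.aeval G) h1
  simpa using h2

/-- the norm element of a cyclic Galois group is the trace -/
lemma dett_tr {K L : Type u} [Field K] [Field L] [Algebra K L] [FiniteDimensional K L]
    [IsGalois K L] (n : ℕ) (hn : n = Module.finrank K L) (g : L ≃ₐ[K] L)
    (hg : ∀ σ : L ≃ₐ[K] L, σ ∈ Subgroup.zpowers g) (θ : L) :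
    ∑ i ∈ Finset.range n, (g ^ i) θ = algebraMap K L (Algebra.trace K L θ) := by
  classical
  have hc : Fintype.card (L ≃ₐ[K] L) = n := by
    rw [hn, ← IsGalois.card_aut_eq_finrank, Nat.card_eq_fintype_card]
  have ho : orderOf g = n := by
    rw [orderOf_eq_card_of_forall_mem_zpowers hg, Nat.card_eq_fintype_card, hc]
  rw [trace_eq_sum_automorphisms, ← IsCyclic.image_range_orderOf hg, Finset.sum_image, ho]
  intro i hi j hj hij
  rw [Finset.coe_range] at hi hj
  exact pow_injOn_Iio_orderOf hi hj hij

lemma dett_end {K L : Type u} [Field K] [Field L] [Algebra K L] (g : L ≃ₐ[K] L) (i : ℕ) (x : L) :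
    ((g.toLinearMap : Module.End K L) ^ i) x = (g ^ i) x := by
  induction i generalizing x with
  | zero => simp
  | succ i ih => rw [pow_succ, pow_succ, Module.End.mul_apply, ih]; rfl

theorem st_DETT : ST_DETT.{u} := by
  intro p _ K L _ _ _ _ _ _ n N hn hnp g hg h0 θ hθ b hb hb1 A hA0 hA
  classical
  have hcard : Fintype.card (Fin n) = Module.finrank K L := by rw [Fintype.card_fin, hn]
  have : Nonempty (Fin n) := ⟨⟨0, h0⟩⟩
  -- the operator `g - 1`
  let D : Module.End K L := g.toLinearMap - 1
  have hD : ∀ x, D x = g x - x := fun x => rfl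
  have hDn : (D ^ (n - 1)) θ = 1 := by
    have h1 := dett_pow (K := K) p N (g.toLinearMap : Module.End K L)
    rw [← hnp] at h1
    show (((g.toLinearMap : Module.End K L) - 1) ^ (n - 1)) θ = 1
    rw [h1, LinearMap.sum_apply]
    rw [Finset.sum_congr rfl (fun i _ => dett_end g i θ), dett_tr n hn g hg θ, hθ, map_one]
  have hD1 : D 1 = 0 := by rw [hD, map_one, sub_self]
  have hDn0 : (D ^ n) θ = 0 := by
    have h1 : n = 1 + (n - 1) := by omega
    rw [h1, pow_add, pow_one, Module.End.mul_apply, hDn, hD1]
  let e := basisOfLinearIndependentOfCardEqFinrank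
    (dett_li D θ n hDn0 (by rw [hDn]; exact one_ne_zero)) hcard
  have he : ∀ j : Fin n, e j = (D ^ (j : ℕ)) θ := fun j => by
    simp only [e, coe_basisOfLinearIndependentOfCardEqFinrank]
  let B := basisOfLinearIndependentOfCardEqFinrank hb hcard
  have hB : ∀ j : Fin n, B j = b j := fun j => by
    simp only [B, coe_basisOfLinearIndependentOfCardEqFinrank]
  let z : Fin n := ⟨0, h0⟩
  let l : Fin n := ⟨n - 1, by omega⟩
  let lam : L →ₗ[K] K := B.coord z
  have hlam1 : lam 1 = 1 := by
    have h1 : B z = 1 := by rw [hB]; exact hb1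
    rw [← h1]
    simp [lam]
  let T : Module.End K L := D + lam.smulRight θ
  have hT : ∀ x, T x = D x + lam x • θ := fun x => rfl
  have hTA : T = Matrix.toLin B B A := by
    apply B.ext
    intro j
    rw [Matrix.toLin_self]
    rcases eq_or_ne j z with rfl | hj
    · have h1 : B z = 1 := by rw [hB]; exact hb1
      rw [hT, h1, hD1, hlam1, one_smul, zero_add, hA0]
      exact Finset.sum_congr rfl fun i _ => by rw [hB]
    · rw [hT, hD]
      have h1 : lam (B j) = 0 := by
        simp only [lam, Module.Basis.coord_apply, Module.Basis.repr_self]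
        exact Finsupp.single_eq_of_ne (Ne.symm hj)
      rw [h1, zero_smul, add_zero, hB, hA j hj]
      exact Finset.sum_congr rfl fun i _ => by rw [hB]
  have hdet : LinearMap.det T = A.det := by rw [hTA, LinearMap.det_toLin]
  have hel : e l = 1 := by rw [he]; exact hDn
  -- the unitriangular change of basis
  let Um : Matrix (Fin n) (Fin n) K := fun i j =>
    if i = j then 1 else if i = l then - lam (e j) else 0
  have hUdet : Um.det = 1 := by
    rw [Matrix.det_of_lowerTriangular]
    · apply Finset.prod_eq_one
      intro i _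
      simp [Um]
    · intro i j hij
      have hij' : i < j := hij
      have h1 : i ≠ j := hij'.ne
      have h2 : i ≠ l := by
        intro h3
        have h4 : (i : ℕ) < j := hij'
        have h5 : (i : ℕ) = n - 1 := by rw [h3]
        have := j.2
        omega
      simp [Um, h1, h2]
  let U : Module.End K L := Matrix.toLin e e Um
  have hU : ∀ j : Fin n, U (e j) = if j = l then e l else e j - lam (e j) • e l := by
    intro j
    simp only [U]
    rw [Matrix.toLin_self]
    split_ifs with h
    · subst h
      rw [Finset.sum_eq_single l]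
      · simp [Um]
      · intro i _ hi
        simp [Um, hi]
      · intro h1; exact absurd (Finset.mem_univ _) h1
    · rw [Finset.sum_eq_add_of_mem j l (Finset.mem_univ _) (Finset.mem_univ _) h]
      · have h1 : ¬ l = j := fun h2 => h h2.symm
        simp only [Um, if_true, if_neg h1]
        rw [one_smul, neg_smul, sub_eq_add_neg]
      · intro i _ hi
        simp [Um, hi.1, hi.2]
  -- the cyclic permutation
  let f : Fin n → Fin n := fun j => if h : (j : ℕ) + 1 < n then ⟨(j : ℕ) + 1, h⟩ else z
  have hTU : ∀ j : Fin n, (T * U) (e j) = e (f j) := by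
    intro j
    rw [Module.End.mul_apply, hU]
    by_cases h : j = l
    · have h1 : f j = z := by
        simp only [f]
        rw [dif_neg]
        rw [h]
        show ¬ (n - 1 + 1 < n)
        omega
      rw [if_pos h, hel, h1, hT, hD1, hlam1, one_smul, zero_add, he]
      rfl
    · have h0' : (j : ℕ) + 1 < n := by
        have h2 := j.2
        have h3 : (j : ℕ) ≠ n - 1 := fun h4 => h (Fin.ext h4)
        omega
      have h1 : f j = ⟨(j : ℕ) + 1, h0'⟩ := by
        simp only [f]
        rw [dif_pos h0']
      rw [if_neg h, hel, h1, hT, map_sub, map_smul, hD1, smul_zero, sub_zero, map_sub, map_smul,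
        hlam1, smul_eq_mul, mul_one, sub_self, zero_smul, add_zero, he, he, pow_succ',
        Module.End.mul_apply]
  have hfinj : Function.Injective f := by
    intro i j hij
    simp only [f] at hij
    have h1 := i.2
    have h2 := j.2
    split_ifs at hij with h3 h4 h4
    · have h5 := congrArg Fin.val hij
      apply Fin.ext
      simpa using h5
    · have h5 := congrArg Fin.val hij
      simp [z] at h5
    · have h5 := congrArg Fin.val hij
      simp [z] at h5
    · apply Fin.ext
      omega
  let σ : Equiv.Perm (Fin n) := Equiv.ofBijective f (Finite.injective_iff_bijective.1 hfinj)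
  have hmat : LinearMap.toMatrix e e (T * U) = (σ.permMatrix K).transpose := by
    ext i j
    rw [LinearMap.toMatrix_apply, hTU, Module.Basis.repr_self, Matrix.transpose_apply]
    show _ = (Equiv.toPEquiv σ).toMatrix j i
    have h1 : σ j = f j := rfl
    simp [Finsupp.single_apply, h1]
  have hdTU : LinearMap.det (T * U) = ((Equiv.Perm.sign σ : ℤ) : K) := by
    rw [← LinearMap.det_toMatrix e, hmat, Matrix.det_transpose, Matrix.det_permutation]
  have hdU : LinearMap.det U = 1 := by
    simp only [U]
    rw [LinearMap.det_toLin, hUdet]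
  rw [map_mul, hdU, mul_one, hdet] at hdTU
  rw [hdTU]
  rcases Int.units_eq_one_or (Equiv.Perm.sign σ) with h | h
  · left; rw [h]; simp
  · right; rw [h]; simp

end Pool.Agent.Helper46.DN
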